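import Pool.Agent.Y412.AL.Grp
import Pool.Agent.TH468.GL.Final
import Pool.Agent.TH468.EC.Cnt
import Pool.Agent.H694R4.Fin

/-! Graphs of large girth, or without an even cycle, and groups with almost a law. -/

set_option autoImplicit false

namespace Pool.Agent.Y412.AL

open Subgroup SimpleGraph
open scoped commutatorElement
open Pool.Agent.H268R2.LB (AltLaw altLaw_word)
open Pool.Agent.TH468.GL (KK)

/-- groups of class two satisfy an alternating law with twelve letters out of three -/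
theorem altLaw_two {C : Type*} [Group C] (h : ∀ a b c : C, ⁅a, b⁆ * c = c * ⁅a, b⁆) :
    AltLaw C 3 6 := by
  refine ⟨by norm_num, fun j => if j < 6 then ⟨j % 3, Nat.mod_lt _ (by norm_num)⟩ else
    ⟨(j + (j - 5)) % 3, Nat.mod_lt _ (by norm_num)⟩, ?_, ?_⟩
  · intro j hj h1
    have hj' : j < 11 := by omega
    interval_cases j <;> simp at h1
  · intro g
    simp only [List.range_succ, List.range_zero, List.nil_append, List.map_append, List.map_cons,
      List.map_nil, List.prod_append, List.prod_cons, List.prod_nil, mul_one]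
    change g 0 * (g 1)⁻¹ * (g 2 * (g 0)⁻¹) * (g 1 * (g 2)⁻¹) * (g 1 * (g 0)⁻¹) *
      (g 2 * (g 1)⁻¹) * (g 0 * (g 2)⁻¹) = 1
    set u := g 0 * (g 1)⁻¹ with hu
    set v := g 2 * (g 1)⁻¹ with hv
    have e1 : g 2 * (g 0)⁻¹ = v * u⁻¹ := by rw [hu, hv]; group
    have e2 : g 1 * (g 2)⁻¹ = v⁻¹ := by rw [hv]; group
    have e3 : g 1 * (g 0)⁻¹ = u⁻¹ := by rw [hu]; group
    have e4 : g 0 * (g 2)⁻¹ = u * v⁻¹ := by rw [hu, hv]; group
    rw [e1, e2, e3, e4]
    have h1 := h u v u⁻¹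
    calc u * (v * u⁻¹) * v⁻¹ * u⁻¹ * v * (u * v⁻¹) = (⁅u, v⁆ * u⁻¹) * (v * u * v⁻¹) := by
          rw [commutatorElement_def]; group
      _ = (u⁻¹ * ⁅u, v⁆) * (v * u * v⁻¹) := by rw [h1]
      _ = 1 := by rw [commutatorElement_def]; group

theorem nilp_two {C : Type*} [Group C] (h : ∀ a b c : C, ⁅a, b⁆ * c = c * ⁅a, b⁆) :
    ∃ _ : Group.IsNilpotent C, Group.nilpotencyClass C ≤ 2 := by
  have h2 : Subgroup.lowerCentralSeries (⊤ : Subgroup C) 2 = ⊥ := by
    rw [Subgroup.lowerCentralSeries_succ, Subgroup.top_lowerCentralSeries_one, Subgroup.commutator_eq_bot_iff_le_centralizer]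
    rw [_root_.commutator_def, Subgroup.commutator_le]
    intro x _ y _
    rw [Subgroup.mem_centralizer_iff]
    intro c _
    exact (h x y c).symm
  have hn : Group.IsNilpotent C := Subgroup.nilpotent_iff_lowerCentralSeries.2 ⟨2, h2⟩
  exact ⟨hn, Subgroup.lowerCentralSeries_eq_bot_iff_nilpotencyClass_le.1 h2⟩

theorem rel_sub {A : Type*} [Group A] (C : Subgroup A)
    (h : ∀ a ∈ C, ∀ b ∈ C, ∀ c ∈ C, ⁅a, b⁆ * c = c * ⁅a, b⁆) :
    ∀ a b c : C, ⁅a, b⁆ * c = c * ⁅a, b⁆ := by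
  intro a b c
  apply Subtype.ext
  exact h a a.2 b b.2 c c.2

section orb

variable {V : Type} {A : Type} [Group A] [MulAction A V] [Finite V]

/-- orbits, few values -/
theorem few_orbits {r : ℕ} (u : FreeGroup (Fin r)) (B : Subgroup A) (s : ℕ) (hB : B.index ≠ 0)
    (hs : (Set.range fun g : Fin r → B => FreeGroup.lift g u).encard ≤ s) :
    ∃ C : Subgroup B, (∀ g : Fin (r + 1) → C, FreeGroup.lift g (ext u) = 1) ∧
      Nat.card (MulAction.orbitRel.Quotient C V) ≤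
        B.index * s.factorial * Nat.card (MulAction.orbitRel.Quotient A V) := by
  obtain ⟨C, h1, h2, h3⟩ := exists_law u s hs
  refine ⟨C, h3, ?_⟩
  calc Nat.card (MulAction.orbitRel.Quotient C V) ≤
        C.index * Nat.card (MulAction.orbitRel.Quotient B V) := orbits_le C h1
    _ ≤ C.index * (B.index * Nat.card (MulAction.orbitRel.Quotient A V)) :=
        Nat.mul_le_mul_left _ (orbits_le B hB)
    _ ≤ s.factorial * (B.index * Nat.card (MulAction.orbitRel.Quotient A V)) :=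
        Nat.mul_le_mul_right _ h2
    _ = _ := by ring

theorem near_orbits {K : ℕ} (C : Subgroup A) [Finite A] (h : C.index ≤ K) :
    Nat.card (MulAction.orbitRel.Quotient C V) ≤
      K * Nat.card (MulAction.orbitRel.Quotient A V) :=
  (orbits_le C C.index_ne_zero_of_finite).trans (Nat.mul_le_mul_right _ h)

end orb

/-! ### Girth -/

section girth

variable {V : Type} {G : SimpleGraph V} {A : Type} [Group A] [MulAction A V]

theorem edges_few [Finite V] [Nonempty V] {k : ℕ} (hk : 1 ≤ k)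
    (hg : ∀ (v : V) (p : G.Walk v v), p.IsCycle → 2 * k < p.length)
    (hG : ∀ (a : A) (x y : V), G.Adj x y → G.Adj (a • x) (a • y)) {r : ℕ} (u : FreeGroup (Fin r))
    (hu : u ≠ 1) (B : Subgroup A) (s : ℕ) (hB : B.index ≠ 0)
    (hs : (Set.range fun g : Fin r → B => FreeGroup.lift g u).encard ≤ s) (R : ℕ)
    (hR : (2 * u.norm + 2) * R ≤ k) :
    (G.edgeSet.ncard / Nat.card V) ^ R ≤ 2 * KK (2 * (r + 1)) R *
      (B.index * s.factorial * Nat.card (MulAction.orbitRel.Quotient A V)) ∧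
    ∀ c : ℝ, 0 < c → c * (Nat.card V : ℝ) ^ (1 + 1 / (k : ℝ)) ≤ (G.edgeSet.ncard : ℝ) →
      (c / 2) ^ R * (Nat.card V : ℝ) ^ ((R : ℝ) / (k : ℝ)) ≤ 2 * (KK (2 * (r + 1)) R : ℝ) *
        ((B.index * s.factorial * Nat.card (MulAction.orbitRel.Quotient A V) : ℕ) : ℝ) := by
  obtain ⟨C, h1, h2⟩ := few_orbits (V := V) u B s hB hs
  have law := altLaw_word (ext u) (ext_ne_one u hu) h1
  have hn := norm_ext_le u
  have hR' : (ext u).norm * R ≤ k := (Nat.mul_le_mul_right _ hn).trans hR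
  have haut : ∀ (a : C) (x y : V), G.Adj x y → G.Adj (a • x) (a • y) :=
    fun a x y h => hG ((a : B) : A) x y h
  refine ⟨?_, fun c hc he => ?_⟩
  · refine (Pool.Agent.TH468.GL.edges_count hg haut law (R := R) ?_).trans
      (Nat.mul_le_mul_left _ h2)
    calc 2 * (ext u).norm * R = 2 * ((ext u).norm * R) := by ring
      _ ≤ 2 * k := Nat.mul_le_mul_left _ hR'
  · refine (Pool.Agent.TH468.GL.edges_real hk hg haut law hR' hc he).trans ?_
    exact mul_le_mul_of_nonneg_left (by exact_mod_cast h2) (by positivity)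

theorem edges_near {ε : ℝ} {K s : ℕ} (hK : ∀ (A : Type) [Group A] [Finite A],
    Near ε s A → ∃ C : Subgroup A, C.index ≤ K ∧
      ∀ a ∈ C, ∀ b ∈ C, ∀ c ∈ C, ⁅a, b⁆ * c = c * ⁅a, b⁆)
    [Finite V] [Nonempty V] [Finite A] {k : ℕ} (hk : 1 ≤ k)
    (hg : ∀ (v : V) (p : G.Walk v v), p.IsCycle → 2 * k < p.length)
    (hG : ∀ (a : A) (x y : V), G.Adj x y → G.Adj (a • x) (a • y)) (hA : Near ε s A) (R : ℕ)
    (hR : 6 * R ≤ k) :
    (G.edgeSet.ncard / Nat.card V) ^ R ≤ 2 * KK 3 R *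
      (K * Nat.card (MulAction.orbitRel.Quotient A V)) ∧
    ∀ c : ℝ, 0 < c → c * (Nat.card V : ℝ) ^ (1 + 1 / (k : ℝ)) ≤ (G.edgeSet.ncard : ℝ) →
      (c / 2) ^ R * (Nat.card V : ℝ) ^ ((R : ℝ) / (k : ℝ)) ≤ 2 * (KK 3 R : ℝ) *
        ((K * Nat.card (MulAction.orbitRel.Quotient A V) : ℕ) : ℝ) := by
  obtain ⟨C, h1, h2⟩ := hK A hA
  have law := altLaw_two (rel_sub C h2)
  have h3 := near_orbits (V := V) C h1
  have haut : ∀ (a : C) (x y : V), G.Adj x y → G.Adj (a • x) (a • y) :=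
    fun a x y h => hG (a : A) x y h
  refine ⟨?_, fun c hc he => ?_⟩
  · refine (Pool.Agent.TH468.GL.edges_count hg haut law (R := R) ?_).trans
      (Nat.mul_le_mul_left _ h3)
    omega
  · refine (Pool.Agent.TH468.GL.edges_real hk hg haut law hR hc he).trans ?_
    exact mul_le_mul_of_nonneg_left (by exact_mod_cast h3) (by positivity)

theorem degree_few [Finite V] [Nonempty V] {δ g : ℕ} (hδ3 : 3 ≤ δ)
    (hδ : ∀ x : V, δ ≤ (G.neighborSet x).ncard) (hg1 : 1 ≤ g)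
    (hg : ∀ (v : V) (p : G.Walk v v), p.IsCycle → g ≤ p.length)
    (hG : ∀ (a : A) (x y : V), G.Adj x y → G.Adj (a • x) (a • y)) {r : ℕ} (u : FreeGroup (Fin r))
    (hu : u ≠ 1) (B : Subgroup A) (s : ℕ) (hB : B.index ≠ 0)
    (hs : (Set.range fun g : Fin r → B => FreeGroup.lift g u).encard ≤ s) :
    (∀ R : ℕ, 2 * (2 * u.norm + 2) * R < g → (δ - 1) ^ R ≤ 2 * KK (2 * (r + 1)) R *
      (B.index * s.factorial * Nat.card (MulAction.orbitRel.Quotient A V))) ∧
    ∀ γ : ℝ, 0 < γ → (Nat.card V : ℝ) ≤ ((δ : ℝ) - 1) ^ (γ * g) →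
      (Nat.card V : ℝ) ^ (1 / (2 * ((2 * u.norm + 2 : ℕ) : ℝ) * γ)) ≤
        ((2 * KK (2 * (r + 1)) ((g - 1) / (2 * (2 * u.norm + 2))) * (B.index * s.factorial) : ℕ) : ℝ) *
          ((δ : ℝ) - 1) * (Nat.card (MulAction.orbitRel.Quotient A V) : ℝ) := by
  obtain ⟨C, h1, h2⟩ := few_orbits (V := V) u B s hB hs
  have law := altLaw_word (ext u) (ext_ne_one u hu) h1
  have hn := norm_ext_le u
  have haut : ∀ (a : C) (x y : V), G.Adj x y → G.Adj (a • x) (a • y) :=
    fun a x y h => hG ((a : B) : A) x y h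
  have h3 : ∀ R : ℕ, 2 * (2 * u.norm + 2) * R < g → (δ - 1) ^ R ≤ 2 * KK (2 * (r + 1)) R *
      (B.index * s.factorial * Nat.card (MulAction.orbitRel.Quotient A V)) := by
    intro R hR
    have hR' : 2 * (ext u).norm * R ≤ 2 * (2 * u.norm + 2) * R :=
      Nat.mul_le_mul_right _ (Nat.mul_le_mul_left _ hn)
    exact (Pool.Agent.TH468.GL.degree_count (M := 2 * (2 * u.norm + 2) * R)
      (fun v p hp => lt_of_lt_of_le hR (hg v p hp)) haut law hR' hδ3 hδ).trans
      (Nat.mul_le_mul_left _ h2)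
  refine ⟨h3, fun γ hγ hsmall => ?_⟩
  refine Pool.Agent.TH468.GL.degree_real (L := 2 * u.norm + 2) (by omega) hδ3 hg1 Nat.card_pos
    ((h3 _ ?_).trans (le_of_eq (by ring))) hγ hsmall
  have := Nat.mul_div_le (g - 1) (2 * (2 * u.norm + 2))
  omega

theorem degree_near {ε : ℝ} {K s : ℕ} (hK : ∀ (A : Type) [Group A] [Finite A],
    Near ε s A → ∃ C : Subgroup A, C.index ≤ K ∧
      ∀ a ∈ C, ∀ b ∈ C, ∀ c ∈ C, ⁅a, b⁆ * c = c * ⁅a, b⁆)
    [Finite V] [Nonempty V] [Finite A] {δ g : ℕ} (hδ3 : 3 ≤ δ)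
    (hδ : ∀ x : V, δ ≤ (G.neighborSet x).ncard) (hg1 : 1 ≤ g)
    (hg : ∀ (v : V) (p : G.Walk v v), p.IsCycle → g ≤ p.length)
    (hG : ∀ (a : A) (x y : V), G.Adj x y → G.Adj (a • x) (a • y)) (hA : Near ε s A) :
    (∀ R : ℕ, 12 * R < g → (δ - 1) ^ R ≤ 2 * KK 3 R *
      (K * Nat.card (MulAction.orbitRel.Quotient A V))) ∧
    ∀ γ : ℝ, 0 < γ → (Nat.card V : ℝ) ≤ ((δ : ℝ) - 1) ^ (γ * g) →
      (Nat.card V : ℝ) ^ (1 / (12 * γ)) ≤ ((2 * KK 3 ((g - 1) / 12) * K : ℕ) : ℝ) *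
          ((δ : ℝ) - 1) * (Nat.card (MulAction.orbitRel.Quotient A V) : ℝ) := by
  obtain ⟨C, h1, h2⟩ := hK A hA
  have law := altLaw_two (rel_sub C h2)
  have h4 := near_orbits (V := V) C h1
  have haut : ∀ (a : C) (x y : V), G.Adj x y → G.Adj (a • x) (a • y) :=
    fun a x y h => hG (a : A) x y h
  have h3 : ∀ R : ℕ, 12 * R < g → (δ - 1) ^ R ≤ 2 * KK 3 R *
      (K * Nat.card (MulAction.orbitRel.Quotient A V)) := by
    intro R hR
    exact (Pool.Agent.TH468.GL.degree_count (M := 12 * R)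
      (fun v p hp => lt_of_lt_of_le hR (hg v p hp)) haut law (by omega) hδ3 hδ).trans
      (Nat.mul_le_mul_left _ h4)
  refine ⟨h3, fun γ hγ hsmall => ?_⟩
  have h5 := Pool.Agent.TH468.GL.degree_real (L := 6) (K := 2 * KK 3 ((g - 1) / 12) * K)
    (t := Nat.card (MulAction.orbitRel.Quotient A V)) (n := Nat.card V) (by omega) hδ3 hg1
    Nat.card_pos ((h3 ((g - 1) / 12) (by omega)).trans (le_of_eq (by ring))) hγ hsmall
  have h6 : (2 * ((6 : ℕ) : ℝ) * γ) = 12 * γ := by push_cast; ring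
  rw [h6] at h5
  exact h5

end girth

/-! ### Even cycles -/

theorem cycles_near {ε : ℝ} {K s : ℕ} (hK : ∀ (A : Type) [Group A] [Finite A],
    Near ε s A → ∃ C : Subgroup A, C.index ≤ K ∧
      ∀ a ∈ C, ∀ b ∈ C, ∀ c ∈ C, ⁅a, b⁆ * c = c * ⁅a, b⁆)
    {V : Type} [Finite V] {A : Type} [Group A] [MulAction A V] [Finite A] (X : SimpleGraph V)
    (k : ℕ) (hk : 9 ≤ k) (hG : ∀ (a : A) (x y : V), X.Adj x y → X.Adj (a • x) (a • y))
    (hA : Near ε s A) (hfree : (cycleGraph (2 * k)).Free X) :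
    X.edgeSet.ncard ≤
      2 * K * (k + 1) ^ 2 * Nat.card (MulAction.orbitRel.Quotient A V) * Nat.card V := by
  obtain ⟨C, h1, h2⟩ := hK A hA
  obtain ⟨hn, hc⟩ := nilp_two (rel_sub C h2)
  have h4 := near_orbits (V := V) C h1
  have h5 := Pool.Agent.H694R4.edges_le (G := C) X (fun a x y h => hG (a : A) x y h) 2 k hc
    (by norm_num) (by omega) hfree
  refine h5.trans ?_
  calc 2 * (k + 1) ^ 2 * Nat.card (MulAction.orbitRel.Quotient C V) * Nat.card V
      ≤ 2 * (k + 1) ^ 2 * (K * Nat.card (MulAction.orbitRel.Quotient A V)) * Nat.card V := by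
        gcongr
    _ = _ := by ring

theorem cycles_few {r : ℕ} (w : FreeGroup (Fin r)) (hw : w ≠ 1) (k : ℕ) (hk : 2 ≤ k)
    (h : 6 * (2 * w.norm + 2) ^ 2 ≤ k ∨ (2 * (2 * w.norm + 2)).factorial ∣ k - 1) :
    ∃ D : ℕ, ∀ (A V : Type) [Group A] [MulAction A V] [Finite V] (B : Subgroup A) (s : ℕ),
      B.index ≠ 0 → (Set.range fun g : Fin r → B => FreeGroup.lift g w).encard ≤ s →
      ∀ X : SimpleGraph V, (∀ (g : A) (a c : V), X.Adj a c → X.Adj (g • a) (g • c)) →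
      (cycleGraph (2 * k)).Free X →
        X.edgeSet.ncard ≤ D * (B.index * s.factorial) *
          Nat.card (MulAction.orbitRel.Quotient A V) * Nat.card V := by
  have hn := norm_ext_le w
  have hlen : (ext w).toWord.length ≤ 2 * w.norm + 2 := hn
  have h' : 6 * (ext w).toWord.length ^ 2 ≤ k ∨
      (2 * (ext w).toWord.length).factorial ∣ k - 1 := by
    rcases h with h | h
    · exact Or.inl ((Nat.mul_le_mul_left _ (Nat.pow_le_pow_left hlen 2)).trans h)
    · exact Or.inr ((Nat.factorial_dvd_factorial (Nat.mul_le_mul_left _ hlen)).trans h)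
  obtain ⟨D, hD⟩ := Pool.Agent.TH468.EC.localO (ext w) (ext_ne_one w hw) k hk h'
  refine ⟨D, fun A V _ _ _ B s hB hs X haut hX => ?_⟩
  obtain ⟨C, h1, h2⟩ := few_orbits (V := V) w B s hB hs
  have hlaw : ∀ φ : FreeGroup (Fin (r + 1)) →* C, φ (ext w) = 1 := by
    intro φ
    have h3 := h1 (fun i => φ (FreeGroup.of i))
    have h4 : FreeGroup.lift (fun i => φ (FreeGroup.of i)) = φ := by
      ext i
      simp
    rwa [h4] at h3
  have hloc := hD C V hlaw X (fun a x y h => haut ((a : B) : A) x y h)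
  have h5 := Pool.Agent.TH468.EC.edges_two X D (2 * k) hloc hX
  refine h5.trans ?_
  calc D * Nat.card (MulAction.orbitRel.Quotient C V) * Nat.card V
      ≤ D * (B.index * s.factorial * Nat.card (MulAction.orbitRel.Quotient A V)) * Nat.card V := by
        gcongr
    _ = _ := by ring

end Pool.Agent.Y412.AL
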