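import Mathlib
import Pool.Agent.Y392.Neu.Neumann

/-! Words with few values, commuting probability, and orbits of subgroups. -/

set_option autoImplicit false

namespace Pool.Agent.Y412.AL

open Subgroup
open scoped commutatorElement

/-- the word `w z w⁻¹ z⁻¹` in one more letter `z` -/
def ext {r : ℕ} (w : FreeGroup (Fin r)) : FreeGroup (Fin (r + 1)) :=
  ⁅FreeGroup.map Fin.castSucc w, FreeGroup.of (Fin.last r)⁆

theorem lift_ext {A : Type*} [Group A] {r : ℕ} (w : FreeGroup (Fin r)) (g : Fin (r + 1) → A) :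
    FreeGroup.lift g (ext w) = ⁅FreeGroup.lift (fun i : Fin r => g i.castSucc) w, g (Fin.last r)⁆ := by
  unfold ext
  rw [map_commutatorElement]
  congr 1
  · rw [← MonoidHom.comp_apply]
    congr 1
    ext i
    simp
  · simp

theorem ext_ne_one {r : ℕ} (w : FreeGroup (Fin r)) (hw : w ≠ 1) : ext w ≠ 1 := by
  classical
  intro h
  -- a permutation representation in which `w` acts nontrivially
  let L : FreeGroup (Fin r) →* Equiv.Perm (FreeGroup (Fin r)) := MulAction.toPermHom _ _
  let J : Equiv.Perm (FreeGroup (Fin r)) →* Equiv.Perm (Option (FreeGroup (Fin r))) :=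
    { toFun := fun σ => Equiv.optionCongr σ
      map_one' := by ext x; cases x <;> simp
      map_mul' := by intro σ τ; ext x; cases x <;> simp }
  let s : Equiv.Perm (Option (FreeGroup (Fin r))) := Equiv.swap (some 1) none
  let g : Fin (r + 1) → Equiv.Perm (Option (FreeGroup (Fin r))) :=
    Fin.lastCases s (fun i => J (L (FreeGroup.of i)))
  have h1 : FreeGroup.lift g (ext w) = 1 := by rw [h, map_one]
  rw [lift_ext] at h1
  have h2 : (fun i : Fin r => g i.castSucc) = fun i => (J.comp L) (FreeGroup.of i) := by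
    ext1 i
    simp [g]
  have h3 : FreeGroup.lift (fun i : Fin r => g i.castSucc) w = (J.comp L) w := by
    rw [h2]
    have : FreeGroup.lift (fun i => (J.comp L) (FreeGroup.of i)) = J.comp L := by
      ext i
      simp
    rw [this]
  have h4 : g (Fin.last r) = s := by simp [g]
  rw [h3, h4, commutatorElement_eq_one_iff_mul_comm] at h1
  have h5 := congrArg (fun σ : Equiv.Perm (Option (FreeGroup (Fin r))) => σ (some 1)) h1
  have h6 : (J.comp L) w (some 1) = some w := by
    simp [J, L]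
  have h7 : (J.comp L) w none = none := by
    simp [J]
  simp only [Equiv.Perm.mul_apply] at h5
  rw [h6] at h5
  have h8 : s (some 1) = none := by simp [s]
  rw [h8, h7] at h5
  have h9 : s (some w) = some w := by
    apply Equiv.swap_apply_of_ne_of_ne
    · simpa using hw
    · simp
  rw [h9] at h5
  exact absurd h5 (by simp)

theorem norm_ext_le {r : ℕ} (w : FreeGroup (Fin r)) : (ext w).norm ≤ 2 * w.norm + 2 := by
  classical
  have h1 : (FreeGroup.map Fin.castSucc w : FreeGroup (Fin (r+1))).norm ≤ w.norm := by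
    have : FreeGroup.map (Fin.castSucc (n := r)) w =
        FreeGroup.mk ((w.toWord).map fun x => (Fin.castSucc x.1, x.2)) := by
      conv_lhs => rw [← FreeGroup.mk_toWord (x := w)]
      rfl
    rw [this]
    refine (FreeGroup.norm_mk_le).trans ?_
    rw [List.length_map]
    exact le_rfl
  unfold ext
  rw [commutatorElement_def]
  refine (FreeGroup.norm_mul_le _ _).trans ?_
  refine (Nat.add_le_add_right (FreeGroup.norm_mul_le _ _) _).trans ?_
  refine (Nat.add_le_add_right (Nat.add_le_add_right (FreeGroup.norm_mul_le _ _) _) _).trans ?_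
  rw [FreeGroup.norm_inv_eq, FreeGroup.norm_inv_eq, FreeGroup.norm_of]
  omega

/-- If a word has at most `s` values then a subgroup of index at most `s!` commutes with them. -/
theorem exists_law {B : Type*} [Group B] {r : ℕ} (w : FreeGroup (Fin r)) (s : ℕ)
    (hs : (Set.range fun g : Fin r → B => FreeGroup.lift g w).encard ≤ s) :
    ∃ C : Subgroup B, C.index ≠ 0 ∧ C.index ≤ s.factorial ∧
      ∀ g : Fin (r + 1) → C, FreeGroup.lift g (ext w) = 1 := by
  classical
  set S : Set B := Set.range fun g : Fin r → B => FreeGroup.lift g w with hS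
  have hfin : S.Finite := Set.finite_of_encard_le_coe hs
  have hcard : Nat.card S ≤ s := by
    have : (S.ncard : ℕ∞) ≤ s := by rw [hfin.cast_ncard_eq]; exact hs
    have h2 : S.ncard ≤ s := by exact_mod_cast this
    rwa [← Nat.card_coe_set_eq] at h2
  have hconj : ∀ (b : B) (x : S), b * x * b⁻¹ ∈ S := by
    rintro b ⟨_, g, rfl⟩
    refine ⟨fun i => b * g i * b⁻¹, ?_⟩
    have : FreeGroup.lift (fun i => b * g i * b⁻¹) = (MulAut.conj b).toMonoidHom.comp (FreeGroup.lift g) := by
      ext i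
      simp
    show FreeGroup.lift (fun i => b * g i * b⁻¹) w = _
    rw [this]
    simp
  let act : MulAction B S :=
    { smul := fun b x => ⟨b * x * b⁻¹, hconj b x⟩
      one_smul := by
        intro x
        apply Subtype.ext
        show (1 : B) * x * 1⁻¹ = x
        simp
      mul_smul := by
        intro a b x
        apply Subtype.ext
        show a * b * (x : B) * (a * b)⁻¹ = a * (b * x * b⁻¹) * a⁻¹
        group }
  let P : B →* Equiv.Perm S := MulAction.toPermHom B S
  have : Finite S := hfin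
  have : Finite (Equiv.Perm S) := inferInstance
  refine ⟨P.ker, ?_, ?_, ?_⟩
  · rw [Subgroup.index_ker]
    exact Nat.card_pos.ne'
  · rw [Subgroup.index_ker]
    calc Nat.card P.range ≤ Nat.card (Equiv.Perm S) := Subgroup.card_le_card_group _
      _ = (Nat.card S).factorial := Nat.card_perm
      _ ≤ s.factorial := Nat.factorial_le hcard
  · intro g
    apply Subtype.ext
    have h1 : ((FreeGroup.lift g (ext w) : P.ker) : B) = FreeGroup.lift (fun i => (g i : B)) (ext w) := by
      have : (P.ker.subtype).comp (FreeGroup.lift g) = FreeGroup.lift (fun i => (g i : B)) := by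
        ext i
        simp
      rw [← this]
      rfl
    rw [h1, lift_ext, OneMemClass.coe_one, commutatorElement_eq_one_iff_mul_comm]
    have h2 : P (g (Fin.last r) : B) = 1 := (g (Fin.last r)).2
    set x : B := FreeGroup.lift (fun i : Fin r => (g i.castSucc : B)) w with hx
    have hxS : x ∈ S := ⟨fun i : Fin r => (g i.castSucc : B), rfl⟩
    have h3 : (P (g (Fin.last r) : B)) ⟨x, hxS⟩ = ⟨x, hxS⟩ := by rw [h2]; rfl
    have h4 : (g (Fin.last r) : B) * x * (g (Fin.last r) : B)⁻¹ = x := congrArg Subtype.val h3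
    rw [mul_inv_eq_iff_eq_mul] at h4
    exact h4.symm

/-- If the commutator subgroup has order at most `s` then a subgroup of index at most `s!`
centralizes it. -/
theorem exists_class_two {H : Type*} [Group H] [Finite (_root_.commutator H)] (s : ℕ)
    (hs : Nat.card (_root_.commutator H) ≤ s) :
    ∃ C : Subgroup H, C.index ≠ 0 ∧ C.index ≤ s.factorial ∧
      ∀ c ∈ C, ∀ x y : H, ⁅x, y⁆ * c = c * ⁅x, y⁆ := by
  classical
  let P : H →* MulAut (_root_.commutator H) := MulAut.conjNormal
  have : Finite (MulAut (_root_.commutator H)) := by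
    exact Finite.of_injective (fun σ : MulAut (_root_.commutator H) => (σ : _ → _)) DFunLike.coe_injective
  refine ⟨P.ker, ?_, ?_, ?_⟩
  · rw [Subgroup.index_ker]
    exact Nat.card_pos.ne'
  · rw [Subgroup.index_ker]
    calc Nat.card P.range ≤ Nat.card (MulAut (_root_.commutator H)) := Subgroup.card_le_card_group _
      _ ≤ Nat.card (Equiv.Perm (_root_.commutator H)) :=
          Nat.card_le_card_of_injective (fun σ => σ.toEquiv) MulEquiv.toEquiv_injective
      _ = (Nat.card (_root_.commutator H)).factorial := Nat.card_perm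
      _ ≤ s.factorial := Nat.factorial_le hs
  · intro c hc x y
    have hm : ⁅x, y⁆ ∈ _root_.commutator H :=
      Subgroup.commutator_mem_commutator (Subgroup.mem_top x) (Subgroup.mem_top y)
    have h1 : P c = 1 := hc
    have h2 : (P c) ⟨⁅x, y⁆, hm⟩ = ⟨⁅x, y⁆, hm⟩ := by rw [h1]; rfl
    have h3 := congrArg Subtype.val h2
    rw [MulAut.conjNormal_apply] at h3
    have h4 : c * ⁅x, y⁆ * c⁻¹ = ⁅x, y⁆ := h3
    rw [mul_inv_eq_iff_eq_mul] at h4
    exact h4.symm

/-- orbits of subgroups -/
theorem orbits_le {A V : Type*} [Group A] [MulAction A V] [Finite V] (C : Subgroup A)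
    (hC : C.index ≠ 0) :
    Nat.card (MulAction.orbitRel.Quotient C V) ≤
      C.index * Nat.card (MulAction.orbitRel.Quotient A V) := by
  classical
  have h0 : Finite (A ⧸ C) := Nat.finite_of_card_ne_zero hC
  have h1 : Finite (MulAction.orbitRel.Quotient A V) := Quotient.finite _
  have hidx : C.index = Nat.card (A ⧸ C) := rfl
  rw [hidx, ← Nat.card_prod]
  let F : (A ⧸ C) × MulAction.orbitRel.Quotient A V → MulAction.orbitRel.Quotient C V :=
    fun p => Quotient.mk _ ((Quotient.out p.1)⁻¹ • (Quotient.out p.2 : V))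
  refine Nat.card_le_card_of_surjective F ?_
  intro q
  obtain ⟨v, rfl⟩ := Quotient.exists_rep q
  -- `v = a • rep`
  have h2 : (MulAction.orbitRel A V).r (Quotient.out (Quotient.mk (MulAction.orbitRel A V) v)) v :=
    Quotient.exact (Quotient.out_eq (Quotient.mk (MulAction.orbitRel A V) v))
  obtain ⟨a, ha⟩ := (MulAction.orbitRel_apply).1 h2
  -- ha : a • v = out
  simp only at ha
  refine ⟨(QuotientGroup.mk a, Quotient.mk _ v), ?_⟩
  apply Quotient.sound
  show (MulAction.orbitRel C V).r _ _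
  rw [MulAction.orbitRel_apply]
  -- out (a C) = a * c
  obtain ⟨c, hc⟩ := QuotientGroup.mk_out_eq_mul C a
  refine ⟨c⁻¹, ?_⟩
  show ((c⁻¹ : C) : A) • v = _
  have h5 : (Quotient.out (QuotientGroup.mk a : A ⧸ C))⁻¹ • (Quotient.out (Quotient.mk (MulAction.orbitRel A V) v) : V) = (c : A)⁻¹ • v := by
    rw [hc, ← ha, mul_inv_rev, mul_smul, inv_smul_smul]
  rw [h5]
  simp

/-- For at least `ε |A| ^ 2` of the pairs `(x, y)` the conjugate `y x y⁻¹` is in a list `F x` of at
most `s` elements. -/
def Near (ε : ℝ) (s : ℕ) (A : Type*) [Group A] : Prop :=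
  ∃ F : A → Finset A, (∀ x, (F x).card ≤ s) ∧
    ε * (Nat.card A : ℝ) ^ 2 ≤ Nat.card {p : A × A // p.2 * p.1 * p.2⁻¹ ∈ F p.1}

theorem card_pairs {A : Type*} [Fintype A] (P : A → A → Prop) [∀ x y, Decidable (P x y)] :
    Nat.card {p : A × A // P p.1 p.2} =
      ∑ z : A, (Finset.univ.filter fun c : A => P z c).card := by
  classical
  rw [Nat.card_eq_fintype_card, Fintype.card_subtype, Finset.card_filter, ← Finset.univ_product_univ,
    Finset.sum_product]
  refine Finset.sum_congr rfl fun z _ => ?_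
  rw [Finset.card_filter]

theorem near_comm {A : Type*} [Group A] [Finite A] (s : ℕ) (F : A → Finset A)
    (hF : ∀ x, (F x).card ≤ s) :
    Nat.card {p : A × A // p.2 * p.1 * p.2⁻¹ ∈ F p.1} ≤
      s * Nat.card {p : A × A // p.1 * p.2 = p.2 * p.1} := by
  classical
  have := Fintype.ofFinite A
  rw [card_pairs (fun x y => y * x * y⁻¹ ∈ F x), card_pairs (fun x y => x * y = y * x),
    Finset.mul_sum]
  refine Finset.sum_le_sum fun x _ => ?_
  have h1 : (Finset.univ.filter fun y : A => y * x * y⁻¹ ∈ F x) =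
      (F x).biUnion fun f => Finset.univ.filter fun y : A => y * x * y⁻¹ = f := by
    ext y
    simp
  rw [h1]
  refine Finset.card_biUnion_le.trans ?_
  refine (Finset.sum_le_card_nsmul _ _ ((Finset.univ.filter fun c : A => x * c = c * x).card) ?_).trans
    (by rw [smul_eq_mul]; exact Nat.mul_le_mul_right _ (hF x))
  intro f _
  rcases Finset.eq_empty_or_nonempty (Finset.univ.filter fun y : A => y * x * y⁻¹ = f) with h | h
  · rw [h]
    simp
  · obtain ⟨y₀, hy₀⟩ := h
    simp only [Finset.mem_filter, Finset.mem_univ, true_and] at hy₀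
    refine Finset.card_le_card_of_injOn (fun y => y₀⁻¹ * y) ?_ ?_
    · intro y hy
      simp only [Finset.coe_filter, Finset.mem_univ, true_and, Set.mem_ofPred_eq] at hy ⊢
      have e4 : y * x * y⁻¹ = y₀ * x * y₀⁻¹ := by rw [hy, hy₀]
      calc x * (y₀⁻¹ * y) = y₀⁻¹ * (y₀ * x * y₀⁻¹) * y := by group
        _ = y₀⁻¹ * (y * x * y⁻¹) * y := by rw [e4]
        _ = y₀⁻¹ * y * x := by group
    · intro x _ y _ h
      exact mul_left_cancel h

/-- commuting pairs -/
theorem near_of_comm {ε : ℝ} {A : Type*} [Group A]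
    (h : ε * (Nat.card A : ℝ) ^ 2 ≤ Nat.card {p : A × A // p.1 * p.2 = p.2 * p.1}) :
    Near ε 1 A := by
  classical
  refine ⟨fun x => {x}, fun x => by simp, h.trans (le_of_eq ?_)⟩
  rw [Nat.cast_inj]
  refine Nat.card_congr (Equiv.subtypeEquivRight fun p => ?_)
  rw [Finset.mem_singleton, mul_inv_eq_iff_eq_mul]
  exact eq_comm

/-- few commutators -/
theorem near_of_commutators {ε : ℝ} {s : ℕ} {A : Type*} [Group A] (S : Finset A) (hS : S.card ≤ s)
    (h : ε * (Nat.card A : ℝ) ^ 2 ≤
      Nat.card {p : A × A // p.1 * p.2 * p.1⁻¹ * p.2⁻¹ ∈ S}) :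
    Near ε s A := by
  classical
  refine ⟨fun x => S.image fun c => c⁻¹ * x, fun x => Finset.card_image_le.trans hS,
    h.trans (le_of_eq ?_)⟩
  rw [Nat.cast_inj]
  refine Nat.card_congr (Equiv.subtypeEquivRight fun p => ?_)
  rw [Finset.mem_image]
  constructor
  · intro hp
    exact ⟨_, hp, by group⟩
  · rintro ⟨c, hc, hcp⟩
    have : p.1 * p.2 * p.1⁻¹ * p.2⁻¹ = c := by
      have e1 : c = p.1 * (p.2 * p.1 * p.2⁻¹)⁻¹ := by rw [← hcp]; group
      rw [e1]; group
    rw [this]
    exact hc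

/-- inverted elements -/
theorem near_of_inverted {ε : ℝ} (hε : 0 ≤ ε) {A : Type*} [Group A] [Finite A] (α : A ≃* A)
    (h : ε * (Nat.card A : ℝ) ≤ Nat.card {x : A // α x = x⁻¹}) : Near (ε ^ 2) 1 A := by
  classical
  have := Fintype.ofFinite A
  refine ⟨fun z => {(α z)⁻¹}, fun x => by simp, ?_⟩
  have h1 : (Nat.card {x : A // α x = x⁻¹}) ^ 2 ≤
      Nat.card {p : A × A // p.2 * p.1 * p.2⁻¹ ∈ ({(α p.1)⁻¹} : Finset A)} := by
    rw [sq, ← Nat.card_prod]
    refine Nat.card_le_card_of_injective (fun q : {x : A // α x = x⁻¹} × {x : A // α x = x⁻¹} =>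
      (⟨((q.1 : A)⁻¹ * q.2, (q.1 : A)), ?_⟩ :
        {p : A × A // p.2 * p.1 * p.2⁻¹ ∈ ({(α p.1)⁻¹} : Finset A)})) ?_
    · obtain ⟨⟨x, hx⟩, ⟨y, hy⟩⟩ := q
      simp only [Finset.mem_singleton]
      rw [map_mul, map_inv, hx, hy]
      group
    · rintro ⟨⟨x, hx⟩, ⟨y, hy⟩⟩ ⟨⟨x', hx'⟩, ⟨y', hy'⟩⟩ hq
      simp only [Subtype.mk.injEq, Prod.mk.injEq] at hq
      obtain ⟨h2, h3⟩ := hq
      subst h3
      have := mul_left_cancel h2
      subst this
      rfl
  calc ε ^ 2 * (Nat.card A : ℝ) ^ 2 = (ε * Nat.card A) ^ 2 := by ring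
    _ ≤ (Nat.card {x : A // α x = x⁻¹} : ℝ) ^ 2 := pow_le_pow_left₀ (by positivity) h 2
    _ ≤ _ := by exact_mod_cast h1

/-- the structure of these groups -/
theorem near_structure (ε : ℝ) (hε : 0 < ε) (s : ℕ) : ∃ K : ℕ, 1 ≤ K ∧
    ∀ (A : Type) [Group A] [Finite A], Near ε s A → ∃ C : Subgroup A, C.index ≤ K ∧
      ∀ a ∈ C, ∀ b ∈ C, ∀ c ∈ C, ⁅a, b⁆ * c = c * ⁅a, b⁆ := by
  classical
  have hs0 : (0 : ℝ) < s + 1 := by positivity
  obtain ⟨K, m, hKm⟩ := Pool.Agent.Y392.Neu.neumann (ε / (s + 1)) (by positivity)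
  refine ⟨K * m.factorial + 1, by omega, fun A _ _ hA => ?_⟩
  obtain ⟨F, hF, hA⟩ := hA
  have hcomm : ε / (s + 1) * (Nat.card A : ℝ) ^ 2 ≤
      Nat.card {p : A × A // p.1 * p.2 = p.2 * p.1} := by
    have h1 := near_comm s F hF
    have h2 : (Nat.card {p : A × A // p.2 * p.1 * p.2⁻¹ ∈ F p.1} : ℝ) ≤
        s * Nat.card {p : A × A // p.1 * p.2 = p.2 * p.1} := by exact_mod_cast h1
    have h3 : (0 : ℝ) ≤ Nat.card {p : A × A // p.1 * p.2 = p.2 * p.1} := Nat.cast_nonneg _
    rw [div_mul_eq_mul_div, div_le_iff₀ hs0]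
    nlinarith
  obtain ⟨H, hH1, hH2⟩ := hKm A hcomm
  obtain ⟨C, hC0, hC1, hC2⟩ := exists_class_two (H := H) m hH2
  refine ⟨C.map H.subtype, ?_, ?_⟩
  · have h1 : (C.map H.subtype).index = C.index * H.index := by
      rw [Subgroup.index_map_subtype]
    rw [h1]
    calc C.index * H.index ≤ m.factorial * K := Nat.mul_le_mul hC1 hH1
      _ ≤ _ := by rw [mul_comm]; omega
  · rintro _ ⟨a, ha, rfl⟩ _ ⟨b, hb, rfl⟩ _ ⟨c, hc, rfl⟩
    have := hC2 c hc a b
    have h2 := congrArg H.subtype this
    rw [map_mul, map_mul, map_commutatorElement] at h2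
    exact h2

end Pool.Agent.Y412.AL
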